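import Pool.Agent.H.MP_7a056a_gt.Defs
import Pool.Agent.H.MP_6bfe6b_gt.C

open CategoryTheory CategoryTheory.Limits Function Set TopologicalSpace Opposite
open Pool.Agent.H.MP_6bfe6b_gt (Epimorphic ContinuousFunctor PreservesPreimages isLimit_of
  of_isLimit Bicomm sep_closed)
open Pool.Agent.H.MP_92e33a_gt (SkeletalSquare)

namespace Pool.Agent.H.MP_7a056a_gt

universe u

variable (F : CompHaus.{u} ⥤ CompHaus.{u})

def Fo (X : Type u) [TopologicalSpace X] [CompactSpace X] [T2Space X] : Type u :=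
  F.obj (CompHaus.of X)

section inst
variable {X : Type u} [TopologicalSpace X] [CompactSpace X] [T2Space X]
instance : TopologicalSpace (Fo F X) := inferInstanceAs (TopologicalSpace (F.obj (CompHaus.of X)))
instance : CompactSpace (Fo F X) := inferInstanceAs (CompactSpace (F.obj (CompHaus.of X)))
instance : T2Space (Fo F X) := inferInstanceAs (T2Space (F.obj (CompHaus.of X)))
end inst

def cm {X Y : CompHaus.{u}} (f : X ⟶ Y) : C(X, Y) := ConcreteCategory.hom f

variable {X Y Z X' Y' : Type u} [TopologicalSpace X] [CompactSpace X] [T2Space X]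
  [TopologicalSpace Y] [CompactSpace Y] [T2Space Y]
  [TopologicalSpace Z] [CompactSpace Z] [T2Space Z]
  [TopologicalSpace X'] [CompactSpace X'] [T2Space X']
  [TopologicalSpace Y'] [CompactSpace Y'] [T2Space Y']

def Hm (f : C(X, Y)) : CompHaus.of X ⟶ CompHaus.of Y :=
  ConcreteCategory.ofHom (C := CompHaus.{u}) f

def Fm (f : C(X, Y)) : C(Fo F X, Fo F Y) := cm (F.map (Hm f))

lemma Fm_comp (f : C(X, Y)) (g : C(Y, Z)) (h : C(X, Z)) (e : ∀ x, g (f x) = h x) (a : Fo F X) :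
    Fm F g (Fm F f a) = Fm F h a := by
  have : Hm f ≫ Hm g = Hm h := by
    ext x
    exact e x
  have h2 := MP_6bfe6b_gt.map_comp_apply F (Hm f) (Hm g) a
  rw [this] at h2
  exact h2.symm

lemma Fm_sq {f' : C(X', Y')} {f : C(X, Y)} {pX : C(X', X)} {pY : C(Y', Y)}
    (e : ∀ x, f (pX x) = pY (f' x)) (a : Fo F X') :
    Fm F f (Fm F pX a) = Fm F pY (Fm F f' a) := by
  rw [Fm_comp F pX f (f.comp pX) fun _ => rfl, Fm_comp F f' pY (f.comp pX) fun x => (e x).symm]

variable {F}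

lemma Fm_surj (he : Epimorphic F) {f : C(X, Y)} (hf : Surjective f) : Surjective (Fm F f) :=
  he (Hm f) hf

lemma Fm_pre (hp : PreservesPreimages F) {f' : C(X', Y')} {f : C(X, Y)} {pX : C(X', X)}
    {pY : C(Y', Y)} (hf : Injective f) (hf' : Injective f') (e : ∀ x, f (pX x) = pY (f' x))
    (hb : ∀ x y, pY y = f x → ∃ t, pX t = x ∧ f' t = y) (a : Fo F X) (b : Fo F Y')
    (hab : Fm F pY b = Fm F f a) : ∃ c, Fm F pX c = a ∧ Fm F f' c = b := by
  have h1 : Bicomm (Hm f') (Hm f) (Hm pX) (Hm pY) := by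
    refine ⟨by ext x; exact e x, fun x => ?_⟩
    ext y
    constructor
    · rintro ⟨t, ht, rfl⟩
      have : pX t = x := ht
      exact (e t).symm.trans (congrArg f this)
    · intro hy
      exact hb x y hy
  have h2 := (hp _ _ _ _ hf hf' h1).2 a
  exact h2.ge hab

lemma Fm_fsq (hs : FinitelySquareSkeletal F) [Finite X] [Finite Y] [Finite X'] [Finite Y']
    {f' : C(X', Y')} {f : C(X, Y)} {pX : C(X', X)}
    {pY : C(Y', Y)} (hf : Surjective f) (hf' : Surjective f') (hX : Surjective pX)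
    (hY : Surjective pY) (e : ∀ x, f (pX x) = pY (f' x))
    (hb : ∀ x y, pY y = f x → ∃ t, pX t = x ∧ f' t = y) {U : Set (Fo F X)} (hU : IsOpen U)
    (hn : U.Nonempty) : ∃ V : Set (Fo F Y), IsOpen V ∧ V.Nonempty ∧ V ⊆ Fm F f '' U ∧
      Fm F pY ⁻¹' V ⊆ Fm F f' '' (Fm F pX ⁻¹' U) := by
  have h1 : SkeletalSquare (Hm f') (Hm f) (Hm pX) (Hm pY) := by
    refine ⟨by ext x; exact e x, fun x U hU => ⟨({f x} : Set Y), isOpen_discrete (α := Y) _,
      singleton_nonempty _, ?_, ?_⟩⟩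
    · rintro _ rfl
      exact ⟨x, mem_of_mem_nhds hU, rfl⟩
    · intro y hy
      obtain ⟨t, rfl, ht⟩ := hb x y hy
      exact ⟨t, (mem_of_mem_nhds hU : pX t ∈ U), ht⟩
  obtain ⟨a, ha⟩ := hn
  exact (hs _ _ _ _ ‹Finite X'› ‹Finite Y'› ‹Finite X› ‹Finite Y› hf' hf hX hY h1).2 a U
    (hU.mem_nhds ha)

lemma fin_step (hs : FinitelySquareSkeletal F) [Finite X] [Finite Y] [Finite X'] [Finite Y']
    {f' : C(X', Y')} {f : C(X, Y)} {pX : C(X', X)}
    {pY : C(Y', Y)} (hf : Surjective f) (hf' : Surjective f') (hX : Surjective pX)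
    (hY : Surjective pY) (e : ∀ x, f (pX x) = pY (f' x))
    (hb : ∀ x y, pY y = f x → ∃ t, pX t = x ∧ f' t = y) {U C : Set (Fo F X)} (hU : IsOpen U)
    (hC : IsClosed C) (hUC : U ⊆ C) {W : Set (Fo F Y)} (hW : IsOpen W) (hWU : W ⊆ Fm F f '' U) :
    Fm F pY ⁻¹' W ⊆ Fm F f' '' (Fm F pX ⁻¹' C) := by
  intro b hbW
  by_contra hb'
  have hcl : IsClosed (Fm F f' '' (Fm F pX ⁻¹' C)) :=
    ((hC.preimage (Fm F pX).continuous).isCompact.image (Fm F f').continuous).isClosed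
  obtain ⟨V, hV, ⟨v, hv⟩, hVO, -⟩ := Fm_fsq hs (f' := pY) (f := pY) (pX := ContinuousMap.id Y')
    (pY := ContinuousMap.id Y) hY hY surjective_id surjective_id (fun _ => rfl)
    (fun x y h => ⟨x, rfl, h.symm⟩)
    ((hW.preimage (Fm F pY).continuous).inter hcl.isOpen_compl) ⟨b, hbW, hb'⟩
  have hne : (U ∩ Fm F f ⁻¹' V).Nonempty := by
    obtain ⟨o, ho, rfl⟩ := hVO hv
    obtain ⟨a, ha, e'⟩ := hWU ho.1
    exact ⟨a, ha, show Fm F f a ∈ V from e' ▸ hv⟩
  obtain ⟨V', -, ⟨v', hv'⟩, h1, h2⟩ := Fm_fsq hs hf hf' hX hY e hb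
    (hU.inter (hV.preimage (Fm F f).continuous)) hne
  obtain ⟨a, ha, rfl⟩ := h1 hv'
  obtain ⟨o, ho, e'⟩ := hVO ha.2
  obtain ⟨c, hc, e''⟩ := h2 (show Fm F pY o ∈ V' from e' ▸ hv')
  exact ho.2 ⟨c, hUC hc.1, e''⟩

def pr (j : DiscreteQuotient X) : C(X, j) := ⟨j.proj, j.proj_continuous⟩

def ol {i j : DiscreteQuotient X} (h : i ≤ j) : C(i, j) :=
  ⟨DiscreteQuotient.ofLE h, DiscreteQuotient.ofLE_continuous h⟩

def dg (X : Type u) [TopologicalSpace X] [CompactSpace X] [T2Space X] :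
    ((DiscreteQuotient X)ᵒᵈ)ᵒᵖ ⥤ CompHaus.{u} where
  obj j := CompHaus.of (OrderDual.ofDual j.unop : DiscreteQuotient X)
  map h := Hm (ol h.unop.le)
  map_id j := by
    ext x
    exact DiscreteQuotient.ofLE_refl_apply x
  map_comp h h' := by
    ext x
    exact (DiscreteQuotient.ofLE_ofLE h.unop.le h'.unop.le x).symm

def cn (X : Type u) [TopologicalSpace X] [CompactSpace X] [T2Space X] : Cone (dg X) where
  pt := CompHaus.of X
  π := ⟨fun j => Hm (pr (OrderDual.ofDual j.unop)), fun i j h => by ext x; rfl⟩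

lemma sepF (hc : ContinuousFunctor F) [TotallyDisconnectedSpace X] {A B : Set (Fo F X)}
    (hA : IsClosed A) (hB : IsClosed B)
    (h : ∀ j : DiscreteQuotient X, (Fm F (pr j) '' A ∩ Fm F (pr j) '' B).Nonempty) :
    (A ∩ B).Nonempty := by
  obtain ⟨hl⟩ := isLimit_of (cn X)
    (fun x y h => DiscreteQuotient.eq_of_forall_proj_eq (X := X) fun Q => h (op (OrderDual.toDual Q)))
    (fun t ht => by
      obtain ⟨x, hx⟩ := DiscreteQuotient.exists_of_compat (X := X) (fun Q => t (op (OrderDual.toDual Q)))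
        fun A B h => ht (op (OrderDual.toDual A)) (op (OrderDual.toDual B))
          (homOfLE (show OrderDual.toDual B ≤ OrderDual.toDual A from h)).op
      exact ⟨x, fun j => hx (OrderDual.ofDual j.unop)⟩)
  have := hc (DiscreteQuotient X)ᵒᵈ
  have hl' := isLimitOfPreserves F hl
  have hs := (of_isLimit hl').1
  exact sep_closed (J := (DiscreteQuotient X)ᵒᵈ) (Xs := fun j => Fo F (OrderDual.ofDual j : DiscreteQuotient X))
    (b := fun i j h => Fm F (ol (show OrderDual.ofDual j ≤ OrderDual.ofDual i from h)))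
    (p := fun j => Fm F (pr (OrderDual.ofDual j)))
    (fun i j h x => Fm_comp F _ _ _ (fun _ => rfl) x)
    (fun x y h => hs x y fun j => h j.unop) hA hB fun j => h _

lemma baseF (hc : ContinuousFunctor F) [TotallyDisconnectedSpace X] {O : Set (Fo F X)}
    (hO : IsOpen O) (hn : O.Nonempty) : ∃ (j : DiscreteQuotient X) (O0 : Set (Fo F j)),
      IsOpen O0 ∧ O0.Nonempty ∧ Fm F (pr j) ⁻¹' O0 ⊆ O := by
  obtain ⟨a, ha⟩ := hn
  have : ¬ ∀ j : DiscreteQuotient X, (Fm F (pr j) '' {a} ∩ Fm F (pr j) '' Oᶜ).Nonempty := fun h => by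
    obtain ⟨x, rfl, hx⟩ := sepF hc isClosed_singleton hO.isClosed_compl h
    exact hx ha
  push Not at this
  obtain ⟨j, hj⟩ := this
  refine ⟨j, (Fm F (pr j) '' Oᶜ)ᶜ,
    (hO.isClosed_compl.isCompact.image (Fm F (pr j)).continuous).isClosed.isOpen_compl,
    ⟨Fm F (pr j) a, fun h => ?_⟩, fun x hx => ?_⟩
  · exact hj.subset ⟨⟨a, rfl, rfl⟩, h⟩
  · by_contra hx'
    exact hx ⟨x, hx', rfl⟩

/-- irreducibility. -/
def Irr (q : C(X, Y)) : Prop := ∀ P : Set X, IsOpen P → P.Nonempty → ∃ y, ∀ x, q x = y → x ∈ P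

lemma semiopen (he : Epimorphic F) (hc : ContinuousFunctor F) (hp : PreservesPreimages F)
    [TotallyDisconnectedSpace X] {q : C(X, Y)} (hq : Surjective q) (hi : Irr q)
    {O : Set (Fo F X)} (hO : IsOpen O) (hn : O.Nonempty) :
    ∃ V : Set (Fo F Y), IsOpen V ∧ V.Nonempty ∧ V ⊆ Fm F q '' O := by
  obtain ⟨j, O0, -, ⟨a0, ha0⟩, hsub⟩ := baseF hc hO hn
  choose y hy using fun i : j => hi (j.proj ⁻¹' {i}) (j.isOpen_preimage _) (j.proj_surjective i)
  have hy' : ∀ i x, q x = y i → j.proj x = i := hy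
  let f : C(j, Y) := ⟨y, continuous_of_discreteTopology⟩
  have hf : Injective f := fun i k e => by
    obtain ⟨x, hx⟩ := hq (y i)
    exact (hy' i x hx).symm.trans (hy' k x (hx.trans e))
  let M : Set X := q ⁻¹' range f
  have hM : IsClosed M := (isCompact_range f.continuous).isClosed.preimage q.continuous
  have : CompactSpace M := isCompact_iff_compactSpace.1 hM.isCompact
  let ι : C(M, X) := ⟨Subtype.val, continuous_subtype_val⟩
  refine ⟨(Fm F q '' Oᶜ)ᶜ,
    (hO.isClosed_compl.isCompact.image (Fm F q).continuous).isClosed.isOpen_compl,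
    ⟨Fm F f a0, ?_⟩, fun b hb => ?_⟩
  · rintro ⟨a', ha', e⟩
    obtain ⟨c, h1, h2⟩ := Fm_pre hp (f' := ι) (f := f) (pX := (pr j).comp ι) (pY := q) hf
      Subtype.val_injective (fun m => by
        obtain ⟨i, hi⟩ := m.2
        have : j.proj m.1 = i := hy' i _ hi.symm
        show y (j.proj m.1) = q m.1
        rw [this]
        exact hi)
      (fun i x h => ⟨⟨x, i, h.symm⟩, hy' i x h, rfl⟩) a0 a' e
    apply ha'
    apply hsub
    show Fm F (pr j) a' ∈ O0
    rw [← h2, Fm_comp F ι (pr j) ((pr j).comp ι) fun _ => rfl, h1]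
    exact ha0
  · obtain ⟨a, rfl⟩ := Fm_surj he hq b
    by_contra h
    exact hb ⟨a, fun ha => h ⟨a, ha, rfl⟩, rfl⟩

lemma exists_irr {D : Type u} [TopologicalSpace D] [CompactSpace D] (π : C(D, Y))
    (hπ : Surjective π) : ∃ E : Set D, CompactSpace E ∧ (∀ y, ∃ e : E, π e = y) ∧
      ∀ P : Set E, IsOpen P → P.Nonempty → ∃ y, ∀ x : E, π x = y → x ∈ P := by
  obtain ⟨E, h1, h2, h3⟩ := exists_compact_surjective_zorn_subset π.continuous hπ
  refine ⟨E, h1, fun y => ?_, fun P hP hn => ?_⟩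
  · obtain ⟨d, hd, e⟩ := h2.ge (mem_univ y)
    exact ⟨⟨d, hd⟩, e⟩
  · obtain ⟨y, hy⟩ := (ne_univ_iff_exists_notMem _).1
      (h3 Pᶜ (compl_ne_univ.2 hn) hP.isClosed_compl)
    refine ⟨y, fun x hx => ?_⟩
    by_contra h
    exact hy ⟨x, h, hx⟩

end Pool.Agent.H.MP_7a056a_gt
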