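import Pool.Agent.H.MP_7a056a_gt.A

open CategoryTheory CategoryTheory.Limits Function Set TopologicalSpace Opposite
open Pool.Agent.H.MP_6bfe6b_gt (Epimorphic ContinuousFunctor PreservesPreimages)
open Pool.Agent.H.MP_92e33a_gt (SkeletalFunctor)

namespace Pool.Agent.H.MP_7a056a_gt

universe u

variable {F : CompHaus.{u} ⥤ CompHaus.{u}}

variable {X Y : Type u} [TopologicalSpace X] [CompactSpace X] [T2Space X]
  [TopologicalSpace Y] [CompactSpace Y] [T2Space Y]

/-- pairs `(i, l)` with `τ l i`. -/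
abbrev KK {K L : Type u} (τ : L → K → Bool) : Type u := {p : K × L // τ p.2 p.1 = true}

lemma core (he : Epimorphic F) (hc : ContinuousFunctor F) (hs : FinitelySquareSkeletal F)
    {K E T : Type u} [TopologicalSpace K] [DiscreteTopology K] [Finite K]
    [TopologicalSpace E] [CompactSpace E] [T2Space E] [TotallyDisconnectedSpace E]
    [TopologicalSpace T] [CompactSpace T] [T2Space T]
    (τ : C(E, K → Bool)) (π : C(T, K)) (g : C(T, E)) (h1 : ∀ t, τ (g t) (π t) = true)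
    (h2 : ∀ e i, τ e i = true → ∃ t, π t = i ∧ g t = e) (h3 : ∀ e, ∃ i, τ e i = true)
    (h4 : ∀ i, ∃ e, τ e i = true) {O0 : Set (Fo F K)} (hO : IsOpen O0) (hn : O0.Nonempty) :
    ∃ W : Set (Fo F E), IsOpen W ∧ W.Nonempty ∧ W ⊆ Fm F g '' (Fm F π ⁻¹' O0) := by
  obtain ⟨a0, ha0⟩ := hn
  obtain ⟨C0, hC0, hC0c, hCO⟩ := exists_mem_nhds_isClosed_subset (hO.mem_nhds ha0)
  let τ' : LocallyConstant E (K → Bool) :=
    ⟨τ, (IsLocallyConstant.iff_continuous _).2 τ.continuous⟩
  let j0 := τ'.discreteQuotient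
  let τ0 : j0 → K → Bool := τ'.lift
  have hτ0 : ∀ e, τ0 (j0.proj e) = τ e := fun _ => rfl
  let g0 : C(KK τ0, j0) := ⟨fun p => p.1.2, continuous_of_discreteTopology⟩
  let p0 : C(KK τ0, K) := ⟨fun p => p.1.1, continuous_of_discreteTopology⟩
  have hg0 : Surjective g0 := fun l => by
    obtain ⟨e, rfl⟩ := j0.proj_surjective l
    obtain ⟨i, hi⟩ := h3 e
    exact ⟨⟨(i, j0.proj e), hi⟩, rfl⟩
  have hp0 : Surjective p0 := fun i => by
    obtain ⟨e, he⟩ := h4 i
    exact ⟨⟨(i, j0.proj e), he⟩, rfl⟩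
  have hU : IsOpen (Fm F p0 ⁻¹' interior C0) := isOpen_interior.preimage (Fm F p0).continuous
  have hUn : (Fm F p0 ⁻¹' interior C0).Nonempty :=
    (show (interior C0).Nonempty from ⟨a0, mem_interior_iff_mem_nhds.2 hC0⟩).preimage
      (Fm_surj he hp0)
  obtain ⟨W, hW, hWn, hWU, -⟩ := Fm_fsq hs (f' := g0) (f := g0) (pX := ContinuousMap.id _)
    (pY := ContinuousMap.id _) hg0 hg0 surjective_id surjective_id (fun _ => rfl)
    (fun x y h => ⟨x, rfl, h.symm⟩) hU hUn
  refine ⟨Fm F (pr j0) ⁻¹' W, hW.preimage (Fm F _).continuous,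
    hWn.preimage (Fm_surj he j0.proj_surjective), fun b hb => ?_⟩
  have hcl : IsClosed (Fm F g '' (Fm F π ⁻¹' C0)) :=
    ((hC0c.preimage (Fm F π).continuous).isCompact.image (Fm F g).continuous).isClosed
  have key : ({b} ∩ Fm F g '' (Fm F π ⁻¹' C0)).Nonempty := by
    refine sepF hc isClosed_singleton hcl fun j => ?_
    let k := j ⊓ j0
    let pY : C(k, j0) := ol inf_le_right
    let τk : k → K → Bool := fun l => τ0 (pY l)
    let gk : C(KK τk, k) := ⟨fun p => p.1.2, continuous_of_discreteTopology⟩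
    let pX : C(KK τk, KK τ0) := ⟨fun p => ⟨(p.1.1, pY p.1.2), p.2⟩, continuous_of_discreteTopology⟩
    have hY : Surjective pY := fun l => by
      obtain ⟨e, rfl⟩ := j0.proj_surjective l
      exact ⟨k.proj e, rfl⟩
    have hgk : Surjective gk := fun l => by
      obtain ⟨e, rfl⟩ := k.proj_surjective l
      obtain ⟨i, hi⟩ := h3 e
      exact ⟨⟨(i, k.proj e), hi⟩, rfl⟩
    have hb' : ∀ (x : KK τ0) (y : k), pY y = g0 x → ∃ t, pX t = x ∧ gk t = y := by
      rintro ⟨⟨i, l⟩, hl⟩ y h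
      have h' : pY y = l := h
      subst h'
      exact ⟨⟨(i, y), hl⟩, rfl, rfl⟩
    have hX : Surjective pX := fun x => by
      obtain ⟨y, hy⟩ := hY (g0 x)
      exact (hb' x y hy).imp fun _ h => h.1
    have hstep := fin_step hs hg0 hgk hX hY (fun _ => rfl) hb' hU
      (hC0c.preimage (Fm F p0).continuous) (preimage_mono interior_subset) hW hWU
    have hbk : Fm F (pr k) b ∈ Fm F pY ⁻¹' W := by
      show Fm F pY (Fm F (pr k) b) ∈ W
      rw [Fm_comp F (pr k) pY (pr j0) fun _ => rfl]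
      exact hb
    obtain ⟨c, hc1, hc2⟩ := hstep hbk
    let ρ : C(T, KK τk) := ⟨fun t => ⟨(π t, k.proj (g t)), h1 t⟩,
      (π.continuous.prodMk (k.proj_continuous.comp g.continuous)).subtype_mk _⟩
    have hρ : Surjective ρ := by
      rintro ⟨⟨i, l⟩, hl⟩
      obtain ⟨e, rfl⟩ := k.proj_surjective l
      obtain ⟨t, rfl, rfl⟩ := h2 e i hl
      exact ⟨t, rfl⟩
    obtain ⟨a, rfl⟩ := Fm_surj he hρ c
    refine ⟨Fm F (pr j) b, ⟨b, rfl, rfl⟩, Fm F g a, ⟨a, ?_, rfl⟩, ?_⟩
    · show Fm F π a ∈ C0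
      have : Fm F p0 (Fm F pX (Fm F ρ a)) ∈ C0 := hc1
      rwa [Fm_comp F ρ pX (pX.comp ρ) fun _ => rfl, Fm_comp F (pX.comp ρ) p0 π fun _ => rfl] at this
    · rw [← Fm_comp F (pr k) (ol inf_le_left) (pr j) (fun _ => rfl) b, ← hc2,
        ← Fm_comp F (pr k) (ol inf_le_left) (pr j) (fun _ => rfl) (Fm F g a),
        Fm_sq F (f' := g) (f := gk) (pX := ρ) (pY := pr k) fun _ => rfl]
  obtain ⟨_, rfl, a, ha, e⟩ := key
  exact ⟨a, hCO ha, e⟩

lemma main (he : Epimorphic F) (hc : ContinuousFunctor F) (hp : PreservesPreimages F)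
    (hs : FinitelySquareSkeletal F) {f : C(X, Y)} (hf : IsOpenMap f) (hf' : Surjective f)
    {O : Set (Fo F X)} (hO : IsOpen O) (hn : O.Nonempty) :
    ∃ V : Set (Fo F Y), IsOpen V ∧ V.Nonempty ∧ V ⊆ Fm F f '' O := by
  classical
  let lX : C(Ultrafilter X, X) := ⟨Ultrafilter.extend id, continuous_ultrafilter_extend id⟩
  let lY : C(Ultrafilter Y, Y) := ⟨Ultrafilter.extend id, continuous_ultrafilter_extend id⟩
  obtain ⟨EX, _, hX1, hX2⟩ := exists_irr lX fun x => ⟨pure x, ultrafilter_extend_pure id x⟩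
  let ρ : C(EX, X) := ⟨fun e => lX e, lX.continuous.comp continuous_subtype_val⟩
  have hρ : Surjective ρ := hX1
  obtain ⟨j, O0, hO0, hO0n, hsub⟩ := baseF hc (hO.preimage (Fm F ρ).continuous)
    (hn.preimage (Fm_surj he hρ))
  let A : j → Set Y := fun i => f '' (ρ '' (j.proj ⁻¹' {i}))
  have hAc : ∀ i, IsClosed (A i) := fun i =>
    (((j.isClosed_preimage _).isCompact.image ρ.continuous).image f.continuous).isClosed
  have hAi : ∀ i, (interior (A i)).Nonempty := fun i => by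
    obtain ⟨x, hx⟩ := hX2 (j.proj ⁻¹' {i}) (j.isOpen_preimage _) (j.proj_surjective i)
    have ho : IsOpen (ρ '' (j.proj ⁻¹' {i})ᶜ)ᶜ :=
      ((j.isOpen_preimage _).isClosed_compl.isCompact.image ρ.continuous).isClosed.isOpen_compl
    refine ⟨f x, interior_maximal (image_mono fun z hz => ?_) (hf _ ho) ⟨x, ?_, rfl⟩⟩
    · obtain ⟨e, rfl⟩ := hρ z
      by_contra h
      exact hz ⟨e, fun he => h ⟨e, he, rfl⟩, rfl⟩
    · rintro ⟨e, he, e'⟩
      exact he (hx e e')
  let D : Set (Ultrafilter Y × (j → Bool)) :=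
    (⋂ i, {p | p.2 i = false} ∪ {p | lY p.1 ∈ A i}) ∩
    (⋂ i, {p | lY p.1 ∈ (interior (A i))ᶜ} ∪ {p | p.2 i = true}) ∩ ⋃ i, {p | p.2 i = true}
  have hb : ∀ (i : j) (c : Bool), IsClosed {p : Ultrafilter Y × (j → Bool) | p.2 i = c} :=
    fun i c => isClosed_eq (by fun_prop) continuous_const
  have hD : IsClosed D :=
    ((isClosed_iInter fun i => (hb i _).union ((hAc i).preimage (by fun_prop))).inter
      (isClosed_iInter fun i => (isOpen_interior.isClosed_compl.preimage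
        (f := fun p : Ultrafilter Y × (j → Bool) => lY p.1) (by fun_prop)).union (hb i _))).inter
      (isClosed_iUnion_of_finite fun i => hb i _)
  have : CompactSpace D := isCompact_iff_compactSpace.1 hD.isCompact
  let lD : C(D, Y) := ⟨fun p => lY p.1.1, by fun_prop⟩
  have hlD : Surjective lD := fun y => by
    have e : lY (pure y) = y := ultrafilter_extend_pure id y
    refine ⟨⟨(pure y, fun i => decide (y ∈ A i)), ⟨mem_iInter.2 fun i => ?_,
      mem_iInter.2 fun i => ?_⟩, ?_⟩, e⟩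
    · by_cases h : y ∈ A i
      · right
        show lY (pure y) ∈ A i
        rwa [e]
      · left
        exact decide_eq_false h
    · by_cases h : y ∈ A i
      · right
        exact decide_eq_true h
      · left
        show lY (pure y) ∈ (interior (A i))ᶜ
        rw [e]
        exact fun h' => h (interior_subset h')
    · obtain ⟨x, rfl⟩ := hf' y
      obtain ⟨t, rfl⟩ := hρ x
      exact mem_iUnion.2 ⟨j.proj t, decide_eq_true ⟨_, ⟨t, rfl, rfl⟩, rfl⟩⟩
  obtain ⟨E, _, hE1, hE2⟩ := exists_irr lD hlD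
  let q : C(E, Y) := ⟨fun e => lD e, lD.continuous.comp continuous_subtype_val⟩
  let τ : C(E, j → Bool) := ⟨fun e => e.1.1.2, by fun_prop⟩
  let T : Set (EX × E) := {p | f (ρ p.1) = q p.2} ∩ ⋃ i, {p | j.proj p.1 = i} ∩ {p | τ p.2 i = true}
  have hT : IsClosed T := (isClosed_eq (by fun_prop) (by fun_prop)).inter
    (isClosed_iUnion_of_finite fun i =>
      (isClosed_eq (j.proj_continuous.comp continuous_fst) continuous_const).inter
        (isClosed_eq (by fun_prop) continuous_const))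
  have : CompactSpace T := isCompact_iff_compactSpace.1 hT.isCompact
  let r : C(T, EX) := ⟨fun t => t.1.1, by fun_prop⟩
  let g : C(T, E) := ⟨fun t => t.1.2, by fun_prop⟩
  obtain ⟨W, hW, hWn, hWs⟩ := core he hc hs τ ((pr j).comp r) g (fun t => by
      obtain ⟨i, h1, h2⟩ := mem_iUnion.1 t.2.2
      have h1' : j.proj t.1.1 = i := h1
      show τ t.1.2 (j.proj t.1.1) = true
      rw [h1']
      exact h2)
    (fun e i hi => by
      have h1 : q e ∈ A i := (mem_iInter.1 e.1.2.1.1 i).resolve_left fun h =>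
        Bool.false_ne_true (h.symm.trans hi)
      obtain ⟨_, ⟨x, hx, rfl⟩, h2⟩ := h1
      exact ⟨⟨(x, e), h2, mem_iUnion.2 ⟨i, hx, hi⟩⟩, hx, rfl⟩)
    (fun e => by
      obtain ⟨i, hi⟩ := mem_iUnion.1 e.1.2.2
      exact ⟨i, hi⟩)
    (fun i => by
      obtain ⟨y, hy⟩ := hAi i
      obtain ⟨e, rfl⟩ := hE1 y
      exact ⟨e, (mem_iInter.1 e.1.2.1.2 i).resolve_left fun h => h hy⟩) hO0 hO0n
  obtain ⟨V, hV, hVn, hVs⟩ := semiopen he hc hp (q := q) hE1 hE2 hW hWn
  refine ⟨V, hV, hVn, fun v hv => ?_⟩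
  obtain ⟨w, hw, rfl⟩ := hVs hv
  obtain ⟨a, ha, rfl⟩ := hWs hw
  refine ⟨Fm F ρ (Fm F r a), hsub ?_, ?_⟩
  · show Fm F (pr j) (Fm F r a) ∈ O0
    rw [Fm_comp F r (pr j) ((pr j).comp r) fun _ => rfl]
    exact ha
  · rw [Fm_comp F r ρ (ρ.comp r) fun _ => rfl]
    exact Fm_sq F (fun t => t.2.1) a

lemma skel_of {A B : Type u} [TopologicalSpace A] [TopologicalSpace B] (φ : C(A, B))
    (h : ∀ O : Set A, IsOpen O → O.Nonempty → ∃ V : Set B, IsOpen V ∧ V.Nonempty ∧ V ⊆ φ '' O)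
    (S : Set B) (hS : IsNowhereDense S) : IsNowhereDense (φ ⁻¹' S) := by
  by_contra hne
  obtain ⟨V, hV, ⟨v, hv⟩, hVs⟩ := h _ isOpen_interior (nonempty_iff_ne_empty.2 hne)
  have : V ⊆ interior (closure S) := interior_maximal (hVs.trans (image_subset_iff.2
    (interior_subset.trans (φ.continuous.closure_preimage_subset S)))) hV
  have := this hv
  rw [hS] at this
  exact this

theorem yes (he : Epimorphic F) (hc : ContinuousFunctor F) (hp : PreservesPreimages F)
    (hs : FinitelySquareSkeletal F) : SkeletalFunctor F := fun _ _ f hf hf' S hS =>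
  skel_of (Fm F (cm f)) (fun _ hO hn => main he hc hp hs hf hf' hO hn) S hS

end Pool.Agent.H.MP_7a056a_gt
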