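import Pool.Agent.H.MP_92e33a_gt.Defs

open CategoryTheory Function Set Pool.Agent.H.MP_92e33a_gt

namespace Pool.Agent.H.MP_7a056a_gt

universe u

/-- Finitely square-skeletal functors. -/
def FinitelySquareSkeletal (F : CompHaus.{u} ⥤ CompHaus.{u}) : Prop :=
  ∀ ⦃X' Y' X Y : CompHaus.{u}⦄ (f' : X' ⟶ Y') (f : X ⟶ Y) (pX : X' ⟶ X) (pY : Y' ⟶ Y),
    Finite X' → Finite Y' → Finite X → Finite Y →
    Surjective f' → Surjective f → Surjective pX → Surjective pY →
    SkeletalSquare f' f pX pY → SkeletalSquare (F.map f') (F.map f) (F.map pX) (F.map pY)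

end Pool.Agent.H.MP_7a056a_gt
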